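import Pool.Agent.W823.QT.Stm

namespace Pool.Agent.W214.QTRUNA

open Pool.Agent.W823.QT

lemma free_mono {a b : ℕ} (h : a ≤ b) (S : Finset (ℕ × ℕ)) : free a S ≤ free b S := by
  unfold free
  refine Finset.card_le_card (Finset.filter_subset_filter _ ?_)
  exact Finset.range_subset_range.mpr h

lemma free_covered {a : ℕ} {S : Finset (ℕ × ℕ)} {e : ℕ × ℕ} (he : e ∈ S) (h1 : e.1 ≤ a)
    (h2 : a < e.2) : free (a + 1) S = free a S := by
  unfold free
  rw [Finset.range_add_one, Finset.filter_insert, if_neg]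
  intro h
  exact h e he ⟨h1, h2⟩

lemma free_free {a : ℕ} {S : Finset (ℕ × ℕ)} (h : ∀ e ∈ S, ¬ (e.1 ≤ a ∧ a < e.2)) :
    free (a + 1) S = free a S + 1 := by
  unfold free
  rw [Finset.range_add_one, Finset.filter_insert, if_pos h, Finset.card_insert_of_notMem]
  intro hm
  rw [Finset.mem_filter, Finset.mem_range] at hm
  exact lt_irrefl _ hm.1

theorem main : RUNA_T := by
  intro N r S _
  obtain ⟨J, hJ⟩ : ∃ J, J = (Finset.range (N + 1)).filter fun a => free a S = r := ⟨_, rfl⟩
  rw [← hJ]
  by_cases hne : J.Nonempty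
  · obtain ⟨α, hα⟩ : ∃ α, α = J.min' hne := ⟨_, rfl⟩
    obtain ⟨β, hβ⟩ : ∃ β, β = J.max' hne := ⟨_, rfl⟩
    have hαJ : α ∈ J := by rw [hα]; exact J.min'_mem hne
    have hβJ : β ∈ J := by rw [hβ]; exact J.max'_mem hne
    have hmem : ∀ a, a ∈ J ↔ a < N + 1 ∧ free a S = r := by
      intro a
      rw [hJ, Finset.mem_filter, Finset.mem_range]
    have hαr := ((hmem α).mp hαJ).2
    have hβr := ((hmem β).mp hβJ).2
    have hβN := ((hmem β).mp hβJ).1
    have hsub : J ⊆ Finset.Icc α β := by
      intro a ha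
      rw [Finset.mem_Icc, hα, hβ]
      exact ⟨J.min'_le a ha, J.le_max' a ha⟩
    have hin : ∀ a, α ≤ a → a ≤ β → a ∈ J := by
      intro a h1 h2
      rw [hmem]
      have h3 := free_mono h1 S
      have h4 := free_mono h2 S
      exact ⟨by omega, by omega⟩
    have hcov : Finset.Ico α β ⊆ J.biUnion (fun a =>
        (S.filter (fun e => e.1 = a)).biUnion (fun e => Finset.Ico e.1 e.2)) := by
      intro k hk
      rw [Finset.mem_Ico] at hk
      have hk1 := ((hmem k).mp (hin k hk.1 hk.2.le)).2
      have hk2 := ((hmem (k + 1)).mp (hin (k + 1) (by omega) hk.2)).2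
      have hex : ∃ e ∈ S, e.1 ≤ k ∧ k < e.2 := by
        by_contra hcon
        push Not at hcon
        have := free_free (a := k) (S := S) (fun e he h => by
          have := hcon e he h.1
          omega)
        omega
      obtain ⟨e, he, he1, he2⟩ := hex
      have hαe : α ≤ e.1 := by
        by_contra hlt
        push Not at hlt
        have h1 := free_covered (a := α - 1) he (by omega) (by omega)
        rw [Nat.sub_add_cancel (by omega)] at h1
        have h2 : α - 1 ∈ J := by
          rw [hmem]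
          have := ((hmem α).mp hαJ).1
          exact ⟨by omega, by omega⟩
        have h3 := J.min'_le _ h2
        rw [← hα] at h3
        omega
      rw [Finset.mem_biUnion]
      refine ⟨e.1, hin e.1 hαe (by omega), ?_⟩
      rw [Finset.mem_biUnion]
      exact ⟨e, Finset.mem_filter.mpr ⟨he, rfl⟩, Finset.mem_Ico.mpr ⟨he1, he2⟩⟩
    have h1 : β - α ≤ ∑ a ∈ J, ∑ e ∈ S.filter (fun e => e.1 = a), (e.2 - e.1) := by
      calc β - α = (Finset.Ico α β).card := (Nat.card_Ico α β).symm
        _ ≤ (J.biUnion (fun a =>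
            (S.filter (fun e => e.1 = a)).biUnion (fun e => Finset.Ico e.1 e.2))).card :=
            Finset.card_le_card hcov
        _ ≤ ∑ a ∈ J, ((S.filter (fun e => e.1 = a)).biUnion
            (fun e => Finset.Ico e.1 e.2)).card := Finset.card_biUnion_le
        _ ≤ ∑ a ∈ J, ∑ e ∈ S.filter (fun e => e.1 = a), (Finset.Ico e.1 e.2).card :=
            Finset.sum_le_sum fun a _ => Finset.card_biUnion_le
        _ = ∑ a ∈ J, ∑ e ∈ S.filter (fun e => e.1 = a), (e.2 - e.1) := by
            simp only [Nat.card_Ico]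
    have h2 : J.card ≤ β + 1 - α := by
      have := Finset.card_le_card hsub
      rwa [Nat.card_Icc] at this
    omega
  · rw [Finset.not_nonempty_iff_eq_empty] at hne
    rw [hne]
    simp

end Pool.Agent.W214.QTRUNA
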