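import Mathlib
import Pool.Agent.W757.RD.St4
import Pool.Agent.H790R3.RB.TLAM

/-! Task RE-DCL (project RD of helper757, MP_8f2e1c_an): the marked configurations with given
multipliers form a compact set. The proof of closedness follows `Pool.Agent.W305.RQDCL`. -/

set_option autoImplicit false

open Topology Filter Metric Set MeasureTheory
open Pool.Agent.H790R3.RB
open Pool.Agent.W757.RD (fam U₀ xp bp Mk Nrm StFM StDCL)

namespace Pool.Agent.W214.REDCL

theorem pt_ne (a : ℂ) : ((a, (1 : ℂ)) : ℂ × ℂ) ≠ 0 := by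
  intro h
  have := congrArg Prod.snd h
  simp at this

theorem eq_of_cr (a b : ℂ) (h : cr (a, 1) (b, 1) = 0) : a = b := by
  unfold cr at h
  simp only [mul_one, one_mul] at h
  exact sub_eq_zero.1 h

theorem eq_smul (p : ℂ × ℂ) (h : p.2 ≠ 0) : p = p.2 • ((p.1 / p.2, 1) : ℂ × ℂ) := by
  ext
  · simp only [Prod.smul_fst, smul_eq_mul]
    field_simp
  · simp

/-- iterates of a contraction -/
theorem contr_iter {d : ℕ} (x : CV d) (b : ℂ) (p : ℕ) (r c : ℝ) (hc0 : 0 ≤ c) (hc1 : c ≤ 1)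
    (h : ∀ z : ℂ, ‖z - b‖ < r → ∃ a z' : ℂ, a ≠ 0 ∧ ‖z' - b‖ ≤ c * ‖z - b‖ ∧
      (hF x)^[p] (z, 1) = a • ((z', 1) : ℂ × ℂ)) (N : ℕ) :
    ∀ z : ℂ, ‖z - b‖ < r → ∃ a z' : ℂ, a ≠ 0 ∧ ‖z' - b‖ ≤ c ^ N * ‖z - b‖ ∧
      (hF x)^[p * N] (z, 1) = a • ((z', 1) : ℂ × ℂ) := by
  induction N with
  | zero =>
    intro z _
    exact ⟨1, z, one_ne_zero, by simp, by simp⟩
  | succ N ih =>
    intro z hz
    obtain ⟨a, z', ha, hz', e⟩ := h z hz
    have hz'' : ‖z' - b‖ < r := by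
      refine lt_of_le_of_lt hz' (lt_of_le_of_lt ?_ hz)
      nlinarith [norm_nonneg (z - b)]
    obtain ⟨a', w, ha', hw, e'⟩ := ih z' hz''
    refine ⟨a ^ (d ^ (p * N)) * a', w, mul_ne_zero (pow_ne_zero _ ha) ha', ?_, ?_⟩
    · calc ‖w - b‖ ≤ c ^ N * ‖z' - b‖ := hw
        _ ≤ c ^ N * (c * ‖z - b‖) := mul_le_mul_of_nonneg_left hz' (pow_nonneg hc0 _)
        _ = c ^ (N + 1) * ‖z - b‖ := by ring
    · have : p * (N + 1) = p * N + p := by ring
      rw [this, Function.iterate_add_apply, e, hF_iter_smul, e', smul_smul]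

/-- a contraction has no other periodic points -/
theorem no_per {d : ℕ} (x : CV d) (b : ℂ) (p : ℕ) (r c : ℝ) (hc0 : 0 ≤ c) (hc1 : c < 1)
    (h : ∀ z : ℂ, ‖z - b‖ < r → ∃ a z' : ℂ, a ≠ 0 ∧ ‖z' - b‖ ≤ c * ‖z - b‖ ∧
      (hF x)^[p] (z, 1) = a • ((z', 1) : ℂ × ℂ)) (N : ℕ) (hN : N ≠ 0) (z : ℂ) (hz : ‖z - b‖ < r)
    (hp : cr ((hF x)^[p * N] (z, 1)) (z, 1) = 0) : z = b := by
  obtain ⟨a, z', ha, hz', e⟩ := contr_iter x b p r c hc0 hc1.le h N z hz
  rw [e, cr_smul_left] at hp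
  have h2 : z' = z := eq_of_cr _ _ ((mul_eq_zero.1 hp).resolve_left ha)
  rw [h2] at hz'
  have h3 : c ^ N < 1 := pow_lt_one₀ hc0 hc1 hN
  by_contra h0
  have h4 : 0 < ‖z - b‖ := norm_pos_iff.2 (sub_ne_zero.2 h0)
  nlinarith

theorem cyc_iter {d : ℕ} (x : CV d) (hx : ND x) (p N : ℕ) (u : ℂ × ℂ) (hu : u ≠ 0)
    (h : cr ((hF x)^[p] u) u = 0) : cr ((hF x)^[p * N] u) u = 0 := by
  obtain ⟨a, ha, e⟩ := (cr_eq_zero_iff (hx.iter_ne p hu) hu).1 h
  induction N with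
  | zero => simp [cr_self]
  | succ N ih =>
    have : p * (N + 1) = p * N + p := by ring
    rw [this, Function.iterate_add_apply, e, hF_iter_smul, cr_smul_left, ih, mul_zero]

/-- the value of the normalised homogeneous map at infinity -/
theorem hF_inf {d : ℕ} {x : CV d} (h : Nrm x) : hF x (1, 0) = (1, 0) := by
  have key : ∀ i : Fin 2, ∑ j : Fin (d + 1), x (i, j) * ((1 : ℂ) ^ (j : ℕ) * (0 : ℂ) ^ (d - (j : ℕ))) =
      x (i, Fin.last d) := by
    intro i
    rw [Finset.sum_eq_single (Fin.last d)]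
    · simp
    · intro j _ hj
      have : (j : ℕ) < d := lt_of_le_of_ne (Nat.lt_succ_iff.mp j.2) (fun h => hj (Fin.ext h))
      have h2 : d - (j : ℕ) ≠ 0 := by omega
      simp [h2]
    · intro h; exact absurd (Finset.mem_univ _) h
  unfold hF
  simp only [key]
  rw [h.1, h.2]

theorem hF_iter_inf {d : ℕ} {x : CV d} (h : Nrm x) (p : ℕ) : (hF x)^[p] (1, 0) = (1, 0) :=
  Function.iterate_fixed (hF_inf h) p

section local_

variable {d : ℕ}

/-- orbits in the finite chart -/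
noncomputable def G (m : ℕ) (a : (Fin (2 * d) → ℂ) × ℂ) : ℂ × ℂ := (hF (fam a.1))^[m] (a.2, 1)

/-- the affine coordinate -/
noncomputable def R (m : ℕ) (a : (Fin (2 * d) → ℂ) × ℂ) : ℂ := (G m a).1 / (G m a).2

/-- the domain of the affine coordinate -/
def O (m : ℕ) : Set ((Fin (2 * d) → ℂ) × ℂ) := {a | a.1 ∈ U₀ d} ∩ G m ⁻¹' {p | p.2 ≠ 0}

/-- orbits in the chart at infinity -/
noncomputable def Gi (m : ℕ) (a : (Fin (2 * d) → ℂ) × ℂ) : ℂ × ℂ := (hF (fam a.1))^[m] (1, a.2)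

/-- the coordinate at infinity -/
noncomputable def Ri (m : ℕ) (a : (Fin (2 * d) → ℂ) × ℂ) : ℂ := (Gi m a).2 / (Gi m a).1

/-- the domain of the coordinate at infinity -/
def Oi (m : ℕ) : Set ((Fin (2 * d) → ℂ) × ℂ) := {a | a.1 ∈ U₀ d} ∩ Gi m ⁻¹' {p | p.1 ≠ 0}

variable (hf : Differentiable ℂ (fam : (Fin (2 * d) → ℂ) → CV d)) (hU : IsOpen (U₀ d))

include hf in
theorem G_diff (m : ℕ) : Differentiable ℂ (G m : (Fin (2 * d) → ℂ) × ℂ → ℂ × ℂ) :=
  (hF_iter_differentiable d m).comp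
    ((hf.comp differentiable_fst).prodMk (differentiable_snd.prodMk (differentiable_const (1 : ℂ))))

include hf in
theorem Gi_diff (m : ℕ) : Differentiable ℂ (Gi m : (Fin (2 * d) → ℂ) × ℂ → ℂ × ℂ) :=
  (hF_iter_differentiable d m).comp
    ((hf.comp differentiable_fst).prodMk ((differentiable_const (1 : ℂ)).prodMk differentiable_snd))

include hf hU in
theorem O_open (m : ℕ) : IsOpen (O m : Set ((Fin (2 * d) → ℂ) × ℂ)) :=
  (hU.preimage continuous_fst).inter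
    ((isOpen_ne_fun continuous_snd continuous_const).preimage (G_diff hf m).continuous)

include hf hU in
theorem Oi_open (m : ℕ) : IsOpen (Oi m : Set ((Fin (2 * d) → ℂ) × ℂ)) :=
  (hU.preimage continuous_fst).inter
    ((isOpen_ne_fun continuous_fst continuous_const).preimage (Gi_diff hf m).continuous)

include hf in
theorem R_diff (m : ℕ) : DifferentiableOn ℂ (R m) (O m : Set ((Fin (2 * d) → ℂ) × ℂ)) := by
  have e : (R m : (Fin (2 * d) → ℂ) × ℂ → ℂ) = fun a => (G m a).1 * ((G m a).2)⁻¹ := by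
    funext a
    rfl
  rw [e]
  refine (G_diff hf m).fst.differentiableOn.mul ((G_diff hf m).snd.differentiableOn.inv ?_)
  intro a ha
  exact ha.2

include hf in
theorem Ri_diff (m : ℕ) : DifferentiableOn ℂ (Ri m) (Oi m : Set ((Fin (2 * d) → ℂ) × ℂ)) := by
  have e : (Ri m : (Fin (2 * d) → ℂ) × ℂ → ℂ) = fun a => (Gi m a).2 * ((Gi m a).1)⁻¹ := by
    funext a
    rfl
  rw [e]
  refine (Gi_diff hf m).snd.differentiableOn.mul ((Gi_diff hf m).fst.differentiableOn.inv ?_)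
  intro a ha
  exact ha.2

theorem mem_O (m : ℕ) (a : (Fin (2 * d) → ℂ) × ℂ) (ha : a.1 ∈ U₀ d) (w : ℂ)
    (h : cr (G m a) (w, 1) = 0) : a ∈ O m ∧ R m a = w := by
  have h1 : G m a ≠ 0 := ha.1.iter_ne m (pt_ne _)
  obtain ⟨c, hc, e⟩ := (cr_eq_zero_iff h1 (pt_ne w)).1 h
  refine ⟨⟨ha, ?_⟩, ?_⟩
  · show (G m a).2 ≠ 0
    rw [e]
    simpa using hc
  · unfold R
    rw [e]
    simp [hc]

theorem G_eq (m : ℕ) (a : (Fin (2 * d) → ℂ) × ℂ) (ha : a ∈ O m) :
    G m a = (G m a).2 • ((R m a, 1) : ℂ × ℂ) := eq_smul _ ha.2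

include hf hU in
theorem deriv_eq_pd (m : ℕ) (u : Fin (2 * d) → ℂ) (z : ℂ) (ha : (u, z) ∈ O m) :
    deriv (rt (fam u) m) z = LAM.pd (R m) (u, z) := by
  rw [← LAM.pd_eq (O_open hf hU m) (R_diff hf m) u z ha]
  rfl

/-- a uniform bound of the partial derivative gives a uniform contraction -/
theorem lip_of_pd {H : (Fin (2 * d) → ℂ) × ℂ → ℂ} {Ω : Set ((Fin (2 * d) → ℂ) × ℂ)}
    (hΩ : IsOpen Ω) (hH : DifferentiableOn ℂ H Ω) (c : ℝ) (u : Fin (2 * d) → ℂ) (z₀ : ℂ) (r : ℝ)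
    (hin : ∀ w ∈ ball z₀ r, (u, w) ∈ Ω ∧ ‖LAM.pd H (u, w)‖ ≤ c) (z z' : ℂ) (hz : z ∈ ball z₀ r)
    (hz' : z' ∈ ball z₀ r) : ‖H (u, z) - H (u, z')‖ ≤ c * ‖z - z'‖ := by
  have hd : ∀ w ∈ ball z₀ r, DifferentiableAt ℂ (fun w : ℂ => H (u, w)) w := by
    intro w hw
    have h1 : DifferentiableAt ℂ H (u, w) := hH.differentiableAt (hΩ.mem_nhds (hin w hw).1)
    exact h1.comp w ((differentiableAt_const u).prodMk differentiableAt_id)
  exact Convex.norm_image_sub_le_of_norm_deriv_le (𝕜 := ℂ)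
    (f := fun w : ℂ => H (u, w)) (s := ball z₀ r) (C := c) hd (by
      intro w hw
      rw [LAM.pd_eq hΩ hH u w (hin w hw).1]
      exact (hin w hw).2) (convex_ball _ _) hz' hz

/-- product neighbourhoods -/
theorem prod_ev {E : Type} [TopologicalSpace E] {P : E × ℂ → Prop} {u : E} {z₀ : ℂ}
    (h : ∀ᶠ a in 𝓝 (u, z₀), P a) : ∃ r : ℝ, 0 < r ∧ ∀ᶠ u' in 𝓝 u, ∀ w ∈ ball z₀ r, P (u', w) := by
  rw [nhds_prod_eq] at h
  obtain ⟨pa, ha, pb, hb, hab⟩ := Filter.eventually_prod_iff.1 h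
  obtain ⟨r, hr, hball⟩ := Metric.eventually_nhds_iff_ball.1 hb
  refine ⟨r, hr, ?_⟩
  filter_upwards [ha] with u' hu' w hw
  exact hab hu' (hball w hw)

include hf hU in
/-- uniform contraction near an attracting periodic point -/
theorem local_contr (p : ℕ) (u : Fin (2 * d) → ℂ) (z₀ : ℂ) (h0 : (u, z₀) ∈ O p)
    (hm : ‖LAM.pd (R p) (u, z₀)‖ < 1) :
    ∃ (r c : ℝ), 0 < r ∧ 0 ≤ c ∧ c < 1 ∧ ∀ᶠ u' in 𝓝 u, ∀ z ∈ ball z₀ r, ∀ z' ∈ ball z₀ r,
      (u', z) ∈ O p ∧ ‖R p (u', z) - R p (u', z')‖ ≤ c * ‖z - z'‖ := by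
  have hO := (O_open hf hU p).mem_nhds h0
  obtain ⟨c, hc1, hc2⟩ := exists_between hm
  have hcont : ContinuousAt (fun w => ‖LAM.pd (R p) w‖) (u, z₀) :=
    ((LAM.pd_diff (O_open hf hU p) (R_diff hf p)).continuousOn.continuousAt hO).norm
  have hev : ∀ᶠ w in 𝓝 (u, z₀), w ∈ O p ∧ ‖LAM.pd (R p) w‖ < c :=
    (Filter.Eventually.and hO (hcont.eventually (gt_mem_nhds hc1)))
  obtain ⟨r, hr, hball⟩ := prod_ev hev
  refine ⟨r, c, hr, (norm_nonneg _).trans hc1.le, hc2, ?_⟩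
  filter_upwards [hball] with u' hin z hz z' hz'
  exact ⟨(hin z hz).1, lip_of_pd (O_open hf hU p) (R_diff hf p) c u' z₀ r
    (fun w hw => ⟨(hin w hw).1, (hin w hw).2.le⟩) z z' hz hz'⟩

/-- the two charts -/
theorem Ri_eq (m : ℕ) (u : Fin (2 * d) → ℂ) (w : ℂ) (hw : w ≠ 0) :
    Ri m (u, w) = (rt (fam u) m w⁻¹)⁻¹ := by
  have e : ((1, w) : ℂ × ℂ) = w • ((w⁻¹, 1) : ℂ × ℂ) := by
    ext
    · simp [hw]
    · simp
  unfold Ri Gi rt
  simp only
  rw [e, hF_iter_smul]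
  simp only [Prod.smul_fst, Prod.smul_snd, smul_eq_mul]
  rw [mul_div_mul_left _ _ (pow_ne_zero _ hw), inv_div]

include hf hU in
/-- the multiplier does not depend on the chart -/
theorem mult_eq (p : ℕ) (u : Fin (2 * d) → ℂ) (hu : u ∈ U₀ d) (z : ℂ) (hz : z ≠ 0)
    (hc : cr ((hF (fam u))^[p] (z, 1)) (z, 1) = 0) :
    deriv (fun w => Ri p (u, w)) z⁻¹ = deriv (rt (fam u) p) z := by
  obtain ⟨hO, hR⟩ := mem_O p (u, z) hu z hc
  have hRz : rt (fam u) p z = z := hR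
  have hd : DifferentiableAt ℂ (rt (fam u) p) z := by
    have h1 : DifferentiableAt ℂ (R p) (u, z) :=
      (R_diff hf p).differentiableAt ((O_open hf hU p).mem_nhds hO)
    exact h1.comp z ((differentiableAt_const u).prodMk differentiableAt_id)
  have he : (fun w => Ri p (u, w)) =ᶠ[𝓝 z⁻¹] fun w => (rt (fam u) p w⁻¹)⁻¹ := by
    filter_upwards [isOpen_ne.mem_nhds (inv_ne_zero hz)] with w hw
    exact Ri_eq p u w hw
  rw [he.deriv_eq]
  have h1 : HasDerivAt (fun w : ℂ => w⁻¹) (-((z⁻¹) ^ 2)⁻¹) z⁻¹ := hasDerivAt_inv (inv_ne_zero hz)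
  have h2 : HasDerivAt (rt (fam u) p) (deriv (rt (fam u) p) z) (z⁻¹)⁻¹ := by
    rw [inv_inv]
    exact hd.hasDerivAt
  have h3 := h2.comp z⁻¹ h1
  have h4 : (rt (fam u) p ∘ fun w : ℂ => w⁻¹) z⁻¹ ≠ 0 := by
    simp only [Function.comp_apply, inv_inv]
    rw [hRz]
    exact hz
  have h5 := h3.inv h4
  have h6 : ((rt (fam u) p ∘ fun w : ℂ => w⁻¹))⁻¹ = fun w => (rt (fam u) p w⁻¹)⁻¹ := by
    funext w
    rfl
  rw [h6] at h5
  rw [h5.deriv]
  simp only [Function.comp_apply, inv_inv]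
  rw [hRz]
  field_simp

include hf hU in
/-- attracting periodic points of given multiplier are locally bounded -/
theorem bd (hN : ∀ u : Fin (2 * d) → ℂ, Nrm (fam u)) (p : ℕ) (u : Fin (2 * d) → ℂ) (hu : u ∈ U₀ d)
    (v : ℂ) (hv : ‖v‖ < 1) :
    ∃ B : ℝ, ∀ᶠ u' in 𝓝 u, ∀ z : ℂ, cr ((hF (fam u'))^[p] (z, 1)) (z, 1) = 0 →
      deriv (rt (fam u') p) z = v → ‖z‖ ≤ B := by
  have hGi : ∀ u' : Fin (2 * d) → ℂ, Gi p (u', (0 : ℂ)) = (1, 0) := fun u' => hF_iter_inf (hN u') p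
  have h0 : (u, (0 : ℂ)) ∈ (Oi p : Set ((Fin (2 * d) → ℂ) × ℂ)) := by
    refine ⟨hu, ?_⟩
    show (Gi p (u, (0 : ℂ))).1 ≠ 0
    rw [hGi u]
    simp
  have hRi0 : ∀ u' : Fin (2 * d) → ℂ, Ri p (u', (0 : ℂ)) = 0 := by
    intro u'
    unfold Ri
    rw [hGi u']
    simp
  have hO := (Oi_open hf hU p).mem_nhds h0
  have hcont : ContinuousAt (fun w => ‖LAM.pd (Ri p) w‖) (u, (0 : ℂ)) :=
    ((LAM.pd_diff (Oi_open hf hU p) (Ri_diff hf p)).continuousOn.continuousAt hO).norm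
  have hUu : ∀ᶠ u' in 𝓝 u, u' ∈ U₀ d := hU.mem_nhds hu
  -- the transformed fixed point
  have hfix : ∀ u' ∈ U₀ d, ∀ z : ℂ, z ≠ 0 → cr ((hF (fam u'))^[p] (z, 1)) (z, 1) = 0 →
      Ri p (u', z⁻¹) = z⁻¹ := by
    intro u' hu' z hz hc
    obtain ⟨-, hR⟩ := mem_O p (u', z) hu' z hc
    rw [Ri_eq p u' z⁻¹ (inv_ne_zero hz), inv_inv]
    exact congrArg _ hR
  by_cases hlt : ‖LAM.pd (Ri p) (u, (0 : ℂ))‖ < 1
  · obtain ⟨c, hc1, hc2⟩ := exists_between hlt
    have hev : ∀ᶠ w in 𝓝 (u, (0 : ℂ)), w ∈ Oi p ∧ ‖LAM.pd (Ri p) w‖ < c :=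
      (Filter.Eventually.and hO (hcont.eventually (gt_mem_nhds hc1)))
    obtain ⟨r, hr, hball⟩ := prod_ev hev
    refine ⟨1 / r, ?_⟩
    filter_upwards [hball, hUu] with u' hin hu' z hcyc _
    by_contra hcon
    rw [not_le] at hcon
    have hzpos : 0 < ‖z‖ := lt_trans (by positivity) hcon
    have hz : z ≠ 0 := norm_pos_iff.1 hzpos
    have hw : z⁻¹ ∈ ball (0 : ℂ) r := by
      rw [mem_ball_zero_iff, norm_inv, inv_lt_comm₀ hzpos hr]
      rwa [one_div] at hcon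
    have hle := lip_of_pd (Oi_open hf hU p) (Ri_diff hf p) c u' 0 r
      (fun w hw => ⟨(hin w hw).1, (hin w hw).2.le⟩) z⁻¹ 0 hw (mem_ball_self hr)
    rw [hfix u' hu' z hz hcyc, hRi0 u', sub_zero] at hle
    have h4 : 0 < ‖z⁻¹‖ := norm_pos_iff.2 (inv_ne_zero hz)
    nlinarith
  · have hvlt : ‖v‖ < ‖LAM.pd (Ri p) (u, (0 : ℂ))‖ := lt_of_lt_of_le hv (not_lt.1 hlt)
    have hev : ∀ᶠ w in 𝓝 (u, (0 : ℂ)), w ∈ Oi p ∧ ‖v‖ < ‖LAM.pd (Ri p) w‖ :=
      (Filter.Eventually.and hO (hcont.eventually (lt_mem_nhds hvlt)))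
    obtain ⟨r, hr, hball⟩ := prod_ev hev
    refine ⟨1 / r, ?_⟩
    filter_upwards [hball, hUu] with u' hin hu' z hcyc hder
    by_contra hcon
    rw [not_le] at hcon
    have hzpos : 0 < ‖z‖ := lt_trans (by positivity) hcon
    have hz : z ≠ 0 := norm_pos_iff.1 hzpos
    have hw : z⁻¹ ∈ ball (0 : ℂ) r := by
      rw [mem_ball_zero_iff, norm_inv, inv_lt_comm₀ hzpos hr]
      rwa [one_div] at hcon
    have h1 := (hin z⁻¹ hw).2
    rw [← LAM.pd_eq (Oi_open hf hU p) (Ri_diff hf p) u' z⁻¹ (hin z⁻¹ hw).1,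
      mult_eq hf hU p u' hu' z hz hcyc, hder] at h1
    exact lt_irrefl _ h1

end local_

theorem xp_cont (m s : ℕ) : Continuous (xp : (Fin (m + s) → ℂ) → (Fin m → ℂ)) :=
  continuous_pi fun i => continuous_apply (Fin.castAdd s i)

theorem bp_cont (m s : ℕ) (k : Fin s) : Continuous (fun q : Fin (m + s) → ℂ => bp q k) :=
  continuous_apply (Fin.natAdd m k)

/-- Task RE-DCL. -/
theorem task (hFM : StFM) : StDCL := by
  intro d B s per v hd hB hBU hper hv
  obtain ⟨hU, hf, -, hN, -⟩ := hFM d hd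
  apply isCompact_of_isClosed_isBounded
  · -- closed
    refine isClosed_of_closure_subset fun q hq => ?_
    have hfr := mem_closure_iff_frequently.1 hq
    have hqB : xp q ∈ B := by
      have hcl : IsClosed {q' : Fin (2 * d + s) → ℂ | xp q' ∈ B} :=
        hB.isClosed.preimage (xp_cont (2 * d) s)
      exact hcl.closure_subset (closure_mono (fun q' h => h.1) hq)
    have hxU : xp q ∈ U₀ d := hBU hqB
    have hpc : ∀ k : Fin s, Continuous (fun q' : Fin (2 * d + s) → ℂ => (xp q', bp q' k)) :=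
      fun k => (xp_cont (2 * d) s).prodMk (bp_cont (2 * d) s k)
    have hcyc : ∀ k, cr (G (per k) (xp q, bp q k)) (bp q k, 1) = 0 := by
      intro k
      have hGc : Continuous (fun q' : Fin (2 * d + s) → ℂ => G (per k) (xp q', bp q' k)) :=
        (G_diff hf (per k)).continuous.comp (hpc k)
      have hcont : Continuous (fun q' : Fin (2 * d + s) → ℂ =>
          cr (G (per k) (xp q', bp q' k)) (bp q' k, 1)) := by
        unfold cr
        exact (hGc.fst.mul continuous_const).sub (hGc.snd.mul (bp_cont (2 * d) s k))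
      exact tendsto_nhds_unique_of_frequently_eq hcont.continuousAt.tendsto tendsto_const_nhds
        (hfr.mono fun q' h => h.2.1.cyc k)
    have hmul : ∀ k, LAM.pd (R (per k)) (xp q, bp q k) = v k := by
      intro k
      have h0 : (xp q, bp q k) ∈ O (per k) := (mem_O (per k) (xp q, bp q k) hxU _ (hcyc k)).1
      have hcont : ContinuousAt (fun q' : Fin (2 * d + s) → ℂ =>
          LAM.pd (R (per k)) (xp q', bp q' k)) q := by
        have h1 : ContinuousAt (LAM.pd (R (per k))) (xp q, bp q k) :=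
          (LAM.pd_diff (O_open hf hU _) (R_diff hf _)).continuousOn.continuousAt
            ((O_open hf hU _).mem_nhds h0)
        exact ContinuousAt.comp (f := fun q' : Fin (2 * d + s) → ℂ => (xp q', bp q' k)) h1
          (hpc k).continuousAt
      refine tendsto_nhds_unique_of_frequently_eq hcont.tendsto tendsto_const_nhds
        (hfr.mono fun q' h => ?_)
      rw [← deriv_eq_pd hf hU (per k) (xp q') (bp q' k)
        (mem_O (per k) (xp q', bp q' k) h.2.1.xU _ (h.2.1.cyc k)).1]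
      exact h.2.2 k
    have hmul' : ∀ k, deriv (rt (fam (xp q)) (per k)) (bp q k) = v k := by
      intro k
      rw [deriv_eq_pd hf hU (per k) (xp q) (bp q k)
        (mem_O (per k) (xp q, bp q k) hxU _ (hcyc k)).1]
      exact hmul k
    have hdis : ∀ k k', ∀ m : ℕ, cr ((hF (fam (xp q)))^[m] (bp q k, 1)) (bp q k', 1) = 0 →
        k = k' ∧ per k ∣ m := by
      intro k k' m hcr
      obtain ⟨r, c, hr, hc0, hc1, hev⟩ := local_contr hf hU (per k') (xp q) (bp q k')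
        (mem_O (per k') (xp q, bp q k') hxU _ (hcyc k')).1 (by rw [hmul]; exact hv k')
      have hev' : ∀ᶠ q' : Fin (2 * d + s) → ℂ in 𝓝 q, ∀ z ∈ ball (bp q k') r,
          ∀ z' ∈ ball (bp q k') r, (xp q', z) ∈ O (per k') ∧
          ‖R (per k') (xp q', z) - R (per k') (xp q', z')‖ ≤ c * ‖z - z'‖ :=
        (xp_cont (2 * d) s).continuousAt.eventually hev
      obtain ⟨hO, hR⟩ := mem_O m (xp q, bp q k) hxU _ hcr
      have hcontR : ContinuousAt (fun q' : Fin (2 * d + s) → ℂ =>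
          R m (xp q', bp q' k) - bp q' k') q := by
        have h1 : ContinuousAt (R m) (xp q, bp q k) :=
          (R_diff hf m).continuousOn.continuousAt ((O_open hf hU m).mem_nhds hO)
        exact (ContinuousAt.comp (f := fun q' : Fin (2 * d + s) → ℂ => (xp q', bp q' k)) h1
          (hpc k).continuousAt).sub (bp_cont (2 * d) s k').continuousAt
      have hev2 : ∀ᶠ q' in 𝓝 q, ‖R m (xp q', bp q' k) - bp q' k'‖ < r / 2 :=
        hcontR.norm.eventually (gt_mem_nhds (by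
          show ‖R m (xp q, bp q k) - bp q k'‖ < r / 2
          rw [hR, sub_self, norm_zero]; exact half_pos hr))
      have hev3 : ∀ᶠ q' : Fin (2 * d + s) → ℂ in 𝓝 q, (xp q', bp q' k) ∈ O m :=
        (hpc k).continuousAt.eventually ((O_open hf hU m).mem_nhds hO)
      have hev4 : ∀ᶠ q' : Fin (2 * d + s) → ℂ in 𝓝 q, bp q' k' ∈ ball (bp q k') (r / 2) :=
        (bp_cont (2 * d) s k').continuousAt.eventually (ball_mem_nhds _ (half_pos hr))
      obtain ⟨q', hq', h1, h2, h3, h4⟩ :=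
        (hfr.and_eventually (hev'.and (hev2.and (hev3.and hev4)))).exists
      have hnd : ND (fam (xp q')) := hq'.2.1.xU.1
      set w : ℂ := R m (xp q', bp q' k) with hw
      have hu : (hF (fam (xp q')))^[m] (bp q' k, 1) =
          (G m (xp q', bp q' k)).2 • ((w, 1) : ℂ × ℂ) := G_eq m (xp q', bp q' k) h3
      have hden : (G m (xp q', bp q' k)).2 ≠ 0 := h3.2
      have hb : R (per k') (xp q', bp q' k') = bp q' k' :=
        (mem_O (per k') (xp q', bp q' k') hq'.2.1.xU _ (hq'.2.1.cyc k')).2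
      have hbr : bp q' k' ∈ ball (bp q k') r := ball_subset_ball (by linarith) h4
      have hwb : w = bp q' k' := by
        refine no_per (fam (xp q')) (bp q' k') (per k') (r / 2) c hc0 hc1 ?_ (per k)
          (by have := hper k; omega) w h2 ?_
        · intro z hz
          have hzr : z ∈ ball (bp q k') r := by
            rw [mem_ball, dist_eq_norm]
            rw [mem_ball, dist_eq_norm] at h4
            have e : z - bp q k' = (z - bp q' k') + (bp q' k' - bp q k') := by ring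
            rw [e]
            refine (norm_add_le _ _).trans_lt ?_
            linarith
          obtain ⟨h5, h6⟩ := h1 z hzr (bp q' k') hbr
          rw [hb] at h6
          exact ⟨_, _, h5.2, h6, G_eq (per k') (xp q', z) h5⟩
        · have h5 := cyc_iter (fam (xp q')) hnd (per k) (per k') (bp q' k, 1) (pt_ne _)
            (hq'.2.1.cyc k)
          have h6 := cr_iter (fam (xp q')) m (hnd.iter_ne _ (pt_ne _)) (pt_ne _) h5
          rw [← Function.iterate_add_apply, add_comm, Function.iterate_add_apply, hu, hF_iter_smul,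
            cr_smul_left, cr_smul_right, mul_comm (per k)] at h6
          exact (mul_eq_zero.1 ((mul_eq_zero.1 h6).resolve_left (pow_ne_zero _ hden))).resolve_left
            hden
      rw [hwb] at hu
      exact hq'.2.1.dis k k' m (by rw [hu, cr_smul_left, cr_self, mul_zero])
    exact ⟨hqB, ⟨hxU, hper, hcyc, fun k => by rw [hmul']; exact hv k, hdis⟩, hmul'⟩
  · -- bounded
    obtain ⟨M, hM⟩ := hB.isBounded.exists_norm_le
    have hbd : ∃ C : ℝ, ∀ u ∈ B, ∀ (k : Fin s) (z : ℂ),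
        cr ((hF (fam u))^[per k] (z, 1)) (z, 1) = 0 → deriv (rt (fam u) (per k)) z = v k →
        ‖z‖ ≤ C := by
      refine hB.induction_on (p := fun T => ∃ C : ℝ, ∀ u ∈ T, ∀ (k : Fin s) (z : ℂ),
        cr ((hF (fam u))^[per k] (z, 1)) (z, 1) = 0 → deriv (rt (fam u) (per k)) z = v k →
        ‖z‖ ≤ C) ?_ ?_ ?_ ?_
      · exact ⟨0, fun u hu => absurd hu (notMem_empty u)⟩
      · rintro T T' hTT' ⟨C, hC⟩
        exact ⟨C, fun u hu => hC u (hTT' hu)⟩
      · rintro T T' ⟨C, hC⟩ ⟨C', hC'⟩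
        refine ⟨max C C', fun u hu k z h1 h2 => ?_⟩
        rcases hu with hu | hu
        · exact le_max_of_le_left (hC u hu k z h1 h2)
        · exact le_max_of_le_right (hC' u hu k z h1 h2)
      · intro u hu
        choose C hC using fun k : Fin s => bd hf hU hN (per k) u (hBU hu) (v k) (hv k)
        obtain ⟨C₀, hC₀⟩ : ∃ C₀ : ℝ, ∀ k, C k ≤ C₀ := by
          obtain ⟨C₀, hC₀⟩ := (Set.finite_range C).bddAbove
          exact ⟨C₀, fun k => hC₀ (mem_range_self k)⟩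
        refine ⟨_, mem_nhdsWithin_of_mem_nhds (Filter.eventually_all.2 hC), C₀, ?_⟩
        intro u' hu' k z h1 h2
        exact (hu' k z h1 h2).trans (hC₀ k)
    obtain ⟨C, hC⟩ := hbd
    rw [Metric.isBounded_iff_subset_closedBall 0]
    refine ⟨max (max M C) 0, fun q hq => ?_⟩
    rw [mem_closedBall_zero_iff, pi_norm_le_iff_of_nonneg (le_max_right _ _)]
    intro i
    refine Fin.addCases (fun i => ?_) (fun k => ?_) i
    · refine le_max_of_le_left (le_max_of_le_left ?_)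
      exact (norm_le_pi_norm (xp q) i).trans (hM _ hq.1)
    · refine le_max_of_le_left (le_max_of_le_right ?_)
      exact hC (xp q) hq.1 k (bp q k) (hq.2.1.cyc k) (hq.2.2 k)

end Pool.Agent.W214.REDCL
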