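import Mathlib

namespace Pool.Agent.W214.Cube

open Finset

/-- elementary inequality: `p, q ≤ E`, `p q ≤ 1`, `1 ≤ E` give `p + q ≤ E + 1/E`. -/
theorem add_le_of_mul_le {p q E : ℝ} (hpE : p ≤ E) (hqE : q ≤ E)
    (hE : 1 ≤ E) (hpq : p * q ≤ 1) : p + q ≤ E + E⁻¹ := by
  have hE0 : 0 < E := by linarith
  have hinv : E * E⁻¹ = 1 := mul_inv_cancel₀ hE0.ne'
  have hEi : 0 < E⁻¹ := inv_pos.mpr hE0
  have hEi1 : E⁻¹ ≤ 1 := inv_le_one_of_one_le₀ hE
  by_cases h : p ≤ E⁻¹
  · linarith
  · push Not at h
    by_cases h' : q ≤ E⁻¹
    · linarith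
    · push Not at h'
      -- p * (p + q) ≤ p^2 + 1 ≤ p (E + 1/E)
      have h1 : (p - E⁻¹) * (E - p) ≥ 0 := mul_nonneg (by linarith) (by linarith)
      have h2 : p * (p + q) ≤ p * (E + E⁻¹) := by nlinarith
      have hp0 : 0 < p := by linarith
      exact le_of_mul_le_mul_left h2 hp0

/-- The exponential-moment isoperimetric inequality on the discrete cube. -/
theorem iso (lam : ℝ) (hlam : 0 ≤ lam) : ∀ (N : ℕ) (I : Finset (Fin N → Bool))
    (g : (Fin N → Bool) → ℝ), (∀ x, ∀ y ∈ I, g x ≤ lam * (hammingDist x y : ℝ)) →
    (∑ x, Real.exp (g x)) * (I.card : ℝ) ≤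
      (Real.exp lam + 2 + Real.exp (-lam)) ^ N := by
  intro N
  induction N with
  | zero =>
    intro I g hg
    simp only [pow_zero, Fintype.sum_unique]
    rcases Finset.eq_empty_or_nonempty I with h | ⟨y, hy⟩
    · simp [h]
    · have h3' : ∀ z : Fin 0 → Bool, Real.exp (g z) ≤ 1 := by
        intro z
        have h1 := hg z y hy
        have h2 : hammingDist z y = 0 := by
          rw [hammingDist_eq_zero]; exact Subsingleton.elim _ _
        rw [h2] at h1
        rw [Real.exp_le_one_iff]; simpa using h1
      have h3 := h3' (@default (Fin 0 → Bool) Unique.instInhabited)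
      have h4 : (I.card : ℝ) ≤ 1 := by
        have := Finset.card_le_univ I
        simp at this
        exact_mod_cast this
      have h5 : (0 : ℝ) ≤ I.card := by positivity
      exact mul_le_one₀ h3 h5 h4
  | succ N ih =>
    intro I g hg
    set K := Real.exp lam + 2 + Real.exp (-lam) with hK
    have hKpos : 0 < K := by positivity
    -- slices
    let S : Bool → Finset (Fin N → Bool) := fun b =>
      Finset.univ.filter (fun x => (Fin.cons b x : Fin (N+1) → Bool) ∈ I)
    let G : Bool → ℝ := fun b => ∑ x : Fin N → Bool, Real.exp (g (Fin.cons b x))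
    have hsplit : ∀ h : (Fin (N+1) → Bool) → ℝ, ∑ x, h x =
        ∑ x : Fin N → Bool, h (Fin.cons true x) + ∑ x : Fin N → Bool, h (Fin.cons false x) := by
      intro h
      rw [← (Fin.consEquiv (fun _ : Fin (N+1) => Bool)).sum_comp, Fintype.sum_prod_type]
      simp only [Fintype.univ_bool]
      rw [Finset.sum_pair (by simp)]
      rfl
    have hcard : (I.card : ℝ) = (S true).card + (S false).card := by
      have hS : ∀ b, ((S b).card : ℝ) =
          ∑ x : Fin N → Bool, if (Fin.cons b x : Fin (N+1) → Bool) ∈ I then (1:ℝ) else 0 := by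
        intro b
        rw [Finset.sum_boole]
      have : (I.card : ℝ) = ∑ x : Fin (N+1) → Bool, if x ∈ I then (1:ℝ) else 0 := by
        rw [Finset.sum_boole]; simp
      rw [this, hsplit, hS, hS]
    have hsum : ∑ x, Real.exp (g x) = G true + G false := hsplit _
    have hdist : ∀ (b b' : Bool) (x y : Fin N → Bool),
        (hammingDist (Fin.cons b x : Fin (N+1) → Bool) (Fin.cons b' y)) =
          (if b = b' then 0 else 1) + hammingDist x y := by
      intro b b' x y
      simp only [hammingDist, Finset.card_filter, Fin.sum_univ_succ, Fin.cons_zero, Fin.cons_succ]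
      by_cases h : b = b' <;> simp [h]
    have hsame : ∀ b, G b * (S b).card ≤ K ^ N := by
      intro b
      apply ih (S b) (fun x => g (Fin.cons b x))
      intro x y hy
      have := hg (Fin.cons b x) (Fin.cons b y) (by simpa [S] using hy)
      rw [hdist] at this
      simpa using this
    have hdiff : ∀ b b', b ≠ b' → G b * (S b').card ≤ Real.exp lam * K ^ N := by
      intro b b' hbb
      have := ih (S b') (fun x => g (Fin.cons b x) - lam) (by
        intro x y hy
        have := hg (Fin.cons b x) (Fin.cons b' y) (by simpa [S] using hy)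
        rw [hdist, if_neg hbb] at this
        push_cast at this
        linarith)
      have h2 : ∑ x : Fin N → Bool, Real.exp (g (Fin.cons b x) - lam) = G b * Real.exp (-lam) := by
        simp only [G, Finset.sum_mul]
        apply Finset.sum_congr rfl
        intro x _
        rw [← Real.exp_add]; congr 1
      rw [h2] at this
      have h3 : G b * (S b').card = Real.exp lam * (G b * Real.exp (-lam) * (S b').card) := by
        have : Real.exp lam * Real.exp (-lam) = 1 := by rw [← Real.exp_add]; simp
        calc G b * (S b').card = (Real.exp lam * Real.exp (-lam)) * (G b * (S b').card) := by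
              rw [this, one_mul]
          _ = _ := by ring
      rw [h3]
      exact mul_le_mul_of_nonneg_left this (Real.exp_pos _).le
    have hGpos : ∀ b, 0 ≤ G b := fun b => Finset.sum_nonneg (fun x _ => (Real.exp_pos _).le)
    have hKN : 0 < K ^ N := pow_pos hKpos N
    -- cross terms
    have hcross : G true * (S false).card + G false * (S true).card ≤
        (Real.exp lam + Real.exp (-lam)) * K ^ N := by
      have := add_le_of_mul_le (p := G true * (S false).card / K ^ N)
        (q := G false * (S true).card / K ^ N) (E := Real.exp lam)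
        (by rw [div_le_iff₀ hKN]; exact hdiff true false (by simp))
        (by rw [div_le_iff₀ hKN]; exact hdiff false true (by simp))
        (Real.one_le_exp hlam)
        (by
          have h1 := hsame true
          have h2 := hsame false
          rw [div_mul_div_comm, div_le_one (by positivity)]
          calc G true * ↑(S false).card * (G false * ↑(S true).card)
              = (G true * (S true).card) * (G false * (S false).card) := by ring
            _ ≤ K ^ N * K ^ N := by
                apply mul_le_mul h1 h2 _ hKN.le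
                have := hGpos false; positivity)
      rw [← Real.exp_neg] at this
      rw [← add_div, div_le_iff₀ hKN] at this
      exact this
    rw [hsum, hcard, pow_succ]
    have h1 := hsame true
    have h2 := hsame false
    nlinarith

/-- A subset `I` of the cube `{0,1}^N` without two points at Hamming distance
`≥ (1-δ) N` has at most `2^N exp (-δ² N/2)` elements. -/
theorem card_le_of_no_antipodal (N : ℕ) (δ : ℝ) (hδ : 0 ≤ δ) (I : Finset (Fin N → Bool))
    (hI : ∀ x ∈ I, ∀ y ∈ I, (hammingDist x y : ℝ) ≤ (1 - δ) * N) :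
    (I.card : ℝ) ≤ 2 ^ N * Real.exp (-(δ ^ 2 * N / 2)) := by
  classical
  -- complement
  let cpl : (Fin N → Bool) → (Fin N → Bool) := fun x i => ! x i
  have hcpl : ∀ x y, (hammingDist (cpl x) y : ℝ) = N - hammingDist x y := by
    intro x y
    have : hammingDist (cpl x) y + hammingDist x y = N := by
      simp only [hammingDist, Finset.card_filter, ← Finset.sum_add_distrib]
      have : ∀ a b : Bool, ((if (!a) ≠ b then 1 else 0) + (if a ≠ b then 1 else 0)) = 1 := by
        decide
      rw [Finset.sum_congr rfl (fun i _ => this (x i) (y i))]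
      simp
    have h2 : ((hammingDist (cpl x) y + hammingDist x y : ℕ) : ℝ) = N := by rw [this]
    push_cast at h2
    linarith
  have hinj : Function.Injective cpl := by
    intro x y h
    funext i
    have := congrFun h i
    simpa [cpl] using this
  let J := I.image cpl
  have hJcard : J.card = I.card := Finset.card_image_of_injective _ hinj
  set lam : ℝ := 2 * δ with hlam
  let g : (Fin N → Bool) → ℝ := fun x => if x ∈ J then lam * (δ * N) else 0
  have hiso := iso lam (by positivity) N I g (by
    intro x y hy
    by_cases hx : x ∈ J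
    · simp only [g, hx, if_true]
      obtain ⟨z, hz, rfl⟩ := Finset.mem_image.mp hx
      have h1 := hI z hz y hy
      rw [hcpl]
      apply mul_le_mul_of_nonneg_left _ (by positivity)
      linarith
    · simp only [g, hx, if_false]; positivity)
  have hlow : (I.card : ℝ) * Real.exp (lam * (δ * N)) ≤ ∑ x, Real.exp (g x) := by
    calc (I.card : ℝ) * Real.exp (lam * (δ * N)) = ∑ x ∈ J, Real.exp (g x) := by
          rw [Finset.sum_congr rfl (g := fun _ => Real.exp (lam * (δ * N)))]
          · simp [hJcard]
          · intro x hx; simp [g, hx]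
      _ ≤ _ := Finset.sum_le_univ_sum_of_nonneg (fun x => (Real.exp_pos _).le)
  have hK : Real.exp lam + 2 + Real.exp (-lam) ≤ 4 * Real.exp (lam ^ 2 / 4) := by
    have h1 : Real.exp lam + 2 + Real.exp (-lam) = 4 * (Real.cosh (lam/2)) ^ 2 := by
      rw [Real.cosh_eq]
      have h2 : Real.exp lam = Real.exp (lam/2) ^ 2 := by rw [← Real.exp_nat_mul]; congr 1; push_cast; ring
      have h3 : Real.exp (-lam) = Real.exp (-(lam/2)) ^ 2 := by rw [← Real.exp_nat_mul]; congr 1; push_cast; ring
      have h4 : Real.exp (lam/2) * Real.exp (-(lam/2)) = 1 := by rw [← Real.exp_add]; simp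
      rw [h2, h3]; nlinarith
    have h5 := Real.cosh_le_exp_half_sq (lam/2)
    have h6 : Real.exp ((lam/2)^2/2) ^ 2 = Real.exp (lam^2/4) := by
      rw [← Real.exp_nat_mul]; congr 1; push_cast; ring
    rw [h1, ← h6]
    have h7 : 0 < Real.cosh (lam/2) := Real.cosh_pos _
    gcongr
  have hKN : (Real.exp lam + 2 + Real.exp (-lam)) ^ N ≤ (2 ^ N) ^ 2 * Real.exp (lam ^ 2 / 4 * N) := by
    calc (Real.exp lam + 2 + Real.exp (-lam)) ^ N ≤ (4 * Real.exp (lam ^ 2 / 4)) ^ N := by
          apply pow_le_pow_left₀ (by positivity) hK
      _ = _ := by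
          rw [mul_pow, ← Real.exp_nat_mul, ← pow_mul, mul_comm N 2, pow_mul]
          norm_num
          ring
  have hsq : (I.card : ℝ) ^ 2 * Real.exp (lam * (δ * N)) ≤ (2 ^ N) ^ 2 * Real.exp (lam ^ 2 / 4 * N) := by
    have h0 : (0:ℝ) ≤ I.card := by positivity
    nlinarith [mul_le_mul_of_nonneg_right hlow h0]
  have hfin : (I.card : ℝ) ^ 2 ≤ (2 ^ N * Real.exp (-(δ ^ 2 * N / 2))) ^ 2 := by
    have h1 : (2 ^ N * Real.exp (-(δ ^ 2 * N / 2))) ^ 2 * Real.exp (lam * (δ * N)) =
        (2 ^ N) ^ 2 * Real.exp (lam ^ 2 / 4 * N) := by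
      rw [mul_pow, ← Real.exp_nat_mul, mul_assoc, ← Real.exp_add]
      congr 2; rw [hlam]; push_cast; ring
    rw [← h1] at hsq
    exact le_of_mul_le_mul_right hsq (Real.exp_pos _)
  exact (pow_le_pow_iff_left₀ (by positivity) (by positivity) (by norm_num)).mp hfin

end Pool.Agent.W214.Cube
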