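import Mathlib

namespace Pool.Agent.W214.DRC

open Finset

/-- Dependent random choice, in the form needed for pairwise intersecting subfamilies. -/
theorem drc {n m : ℕ} (hn : 1 ≤ n) {c ε : ℝ} (hc : 0 < c) (hε : 0 < ε)
    (A : Fin m → Finset (Fin n)) (hA : ∀ k, c * n < ((A k).card : ℝ)) (l : ℕ) (D : ℝ)
    (hD : ((univ.image A).card : ℝ) ≤ D) :
    ∃ I : Finset (Fin m),
      (∀ i ∈ I, ∀ j ∈ I, i ≠ j → ε * n < ((A i ∩ A j).card : ℝ)) ∧
      (m : ℝ) * (c ^ l - D * ε ^ l) ≤ I.card := by
  classical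
  have hnpos : (0 : ℝ) < n := by exact_mod_cast hn
  let J : (Fin l → Fin n) → Finset (Fin m) := fun s => univ.filter (fun k => ∀ t, s t ∈ A k)
  let Bd : (Fin l → Fin n) → Finset (Fin m) := fun s =>
    (J s).filter (fun k => ∃ j ∈ J s, ((A k ∩ A j).card : ℝ) ≤ ε * n)
  let G : (Fin l → Fin n) → Finset (Fin m) := fun s =>
    (J s).filter (fun k => ¬ ∃ j ∈ J s, ((A k ∩ A j).card : ℝ) ≤ ε * n)
  have hcardG : ∀ s, ((G s).card : ℝ) = (J s).card - (Bd s).card := by
    intro s
    have := Finset.card_filter_add_card_filter_not (s := J s)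
      (fun k => ∃ j ∈ J s, ((A k ∩ A j).card : ℝ) ≤ ε * n)
    have h2 : ((Bd s).card : ℝ) + (G s).card = (J s).card := by exact_mod_cast this
    linarith
  -- first moment of J
  have hJ : (m : ℝ) * (c * n) ^ l ≤ ∑ s, ((J s).card : ℝ) := by
    have h1 : ∑ s, ((J s).card : ℝ) = ∑ k : Fin m, ((A k).card : ℝ) ^ l := by
      have : ∀ s, ((J s).card : ℝ) = ∑ k : Fin m, if (∀ t, s t ∈ A k) then (1:ℝ) else 0 := by
        intro s; rw [Finset.sum_boole]
      simp_rw [this]
      rw [Finset.sum_comm]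
      apply Finset.sum_congr rfl
      intro k _
      rw [Finset.sum_boole]
      have h3 : (univ.filter (fun s : Fin l → Fin n => ∀ t, s t ∈ A k)) =
          Fintype.piFinset (fun _ : Fin l => A k) := by
        ext s; simp [Fintype.mem_piFinset]
      rw [h3, Fintype.card_piFinset_const]
      simp
    rw [h1]
    calc (m : ℝ) * (c * n) ^ l = ∑ _k : Fin m, (c * n) ^ l := by simp
      _ ≤ _ := Finset.sum_le_sum (fun k _ => pow_le_pow_left₀ (by positivity) (hA k).le l)
  have hB : ∑ s, ((Bd s).card : ℝ) ≤ (m : ℝ) * (D * (ε * n) ^ l) := by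
    have h1 : ∑ s, ((Bd s).card : ℝ) = ∑ k : Fin m,
        ((univ.filter (fun s : Fin l → Fin n => k ∈ Bd s)).card : ℝ) := by
      have : ∀ s, ((Bd s).card : ℝ) = ∑ k : Fin m, if k ∈ Bd s then (1:ℝ) else 0 := by
        intro s; rw [Finset.sum_boole]; simp
      simp_rw [this]
      rw [Finset.sum_comm]
      apply Finset.sum_congr rfl
      intro k _
      rw [Finset.sum_boole]
    rw [h1]
    have h2 : ∀ k : Fin m, ((univ.filter (fun s : Fin l → Fin n => k ∈ Bd s)).card : ℝ) ≤
        D * (ε * n) ^ l := by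
      intro k
      have hsub : (univ.filter (fun s : Fin l → Fin n => k ∈ Bd s)) ⊆
          ((univ.image A).filter (fun B => ((A k ∩ B).card : ℝ) ≤ ε * n)).biUnion
            (fun B => Fintype.piFinset (fun _ : Fin l => A k ∩ B)) := by
        intro s hs
        simp only [mem_filter, mem_univ, true_and, Bd, J] at hs
        obtain ⟨hk, j, hj, hjb⟩ := hs
        simp only [mem_biUnion, mem_filter, mem_image, mem_univ, true_and]
        refine ⟨A j, ⟨⟨j, rfl⟩, hjb⟩, ?_⟩
        rw [Fintype.mem_piFinset]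
        intro t
        exact mem_inter.mpr ⟨hk t, hj t⟩
      calc ((univ.filter (fun s : Fin l → Fin n => k ∈ Bd s)).card : ℝ)
          ≤ ((((univ.image A).filter (fun B => ((A k ∩ B).card : ℝ) ≤ ε * n)).biUnion
            (fun B => Fintype.piFinset (fun _ : Fin l => A k ∩ B))).card : ℝ) := by
            exact_mod_cast Finset.card_le_card hsub
        _ ≤ ∑ B ∈ (univ.image A).filter (fun B => ((A k ∩ B).card : ℝ) ≤ ε * n),
              ((Fintype.piFinset (fun _ : Fin l => A k ∩ B)).card : ℝ) := by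
            exact_mod_cast Finset.card_biUnion_le
        _ ≤ ∑ B ∈ (univ.image A).filter (fun B => ((A k ∩ B).card : ℝ) ≤ ε * n),
              (ε * n) ^ l := by
            apply Finset.sum_le_sum
            intro B hB
            rw [Fintype.card_piFinset_const]
            push_cast
            exact pow_le_pow_left₀ (by positivity) (mem_filter.mp hB).2 l
        _ = (((univ.image A).filter (fun B => ((A k ∩ B).card : ℝ) ≤ ε * n)).card : ℝ) *
              (ε * n) ^ l := by simp
        _ ≤ D * (ε * n) ^ l := by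
            apply mul_le_mul_of_nonneg_right _ (by positivity)
            refine le_trans ?_ hD
            exact_mod_cast Finset.card_filter_le _ _
    calc ∑ k : Fin m, ((univ.filter (fun s : Fin l → Fin n => k ∈ Bd s)).card : ℝ)
        ≤ ∑ _k : Fin m, D * (ε * n) ^ l := Finset.sum_le_sum (fun k _ => h2 k)
      _ = _ := by simp
  have : Nonempty (Fin n) := ⟨⟨0, hn⟩⟩
  have hsum : ∑ _s : Fin l → Fin n, (m : ℝ) * (c ^ l - D * ε ^ l) ≤ ∑ s, ((G s).card : ℝ) := by
    have h1 : ∑ s, ((G s).card : ℝ) = ∑ s, ((J s).card : ℝ) - ∑ s, ((Bd s).card : ℝ) := by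
      rw [← Finset.sum_sub_distrib]
      exact Finset.sum_congr rfl (fun s _ => hcardG s)
    rw [h1]
    have h2 : ∑ _s : Fin l → Fin n, (m : ℝ) * (c ^ l - D * ε ^ l) =
        (m : ℝ) * (c * n) ^ l - (m : ℝ) * (D * (ε * n) ^ l) := by
      simp only [sum_const, card_univ, Fintype.card_fun, Fintype.card_fin, nsmul_eq_mul]
      push_cast
      rw [mul_pow, mul_pow]; ring
    rw [h2]; linarith
  obtain ⟨s, -, hs⟩ := Finset.exists_le_of_sum_le (by simp) hsum
  refine ⟨G s, ?_, hs⟩
  intro i hi j hj hij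
  by_contra hcon
  push Not at hcon
  have hi' := (mem_filter.mp hi).2
  exact hi' ⟨j, (mem_filter.mp hj).1, hcon⟩

end Pool.Agent.W214.DRC
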