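import Pool.Agent.W202.AH.Stm

/-!
Task AHP-8 (project of helper202, MP_7eacff_nt): sums of `r` consecutive gaps do not concentrate on
a coset, uniformly in the coset.
-/

open Complex Filter Topology Set MeasureTheory

namespace Pool.Agent.W214.AHP8

open H177.Lat (ee ee_norm ee_add)
open W202.AH (Good MN CorCoset)

lemma ee_int (k : ℤ) : ee k = 1 := by
  unfold ee
  rw [Complex.exp_eq_one_iff]
  exact ⟨k, by push_cast; ring⟩

lemma ee_sub_one (x : ℝ) : ‖ee x - 1‖ ≤ 2 * Real.pi * |x| := by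
  have h := Real.norm_exp_I_mul_ofReal_sub_one_le (x := 2 * Real.pi * x)
  unfold ee
  rw [mul_comm]
  refine h.trans (le_of_eq ?_)
  rw [Real.norm_eq_abs, abs_mul, abs_of_pos (by positivity : (0 : ℝ) < 2 * Real.pi)]

/-- comparison of a sum of consecutive terms and the shifted sum -/
lemma shift_le (a : ℕ → ℂ) (ha : ∀ n, ‖a n‖ ≤ 1) (l r : ℕ) :
    ‖∑ i ∈ Finset.range l, a (r + i) - ∑ i ∈ Finset.range l, a i‖ ≤ 2 * r := by
  have e1 := Finset.sum_range_add a r l
  have e2 := Finset.sum_range_add a l r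
  rw [add_comm l r] at e2
  have e3 : ∑ i ∈ Finset.range l, a (r + i) - ∑ i ∈ Finset.range l, a i =
      ∑ i ∈ Finset.range r, a (l + i) - ∑ i ∈ Finset.range r, a i := by
    linear_combination e2 - e1
  rw [e3]
  have g1 : ‖∑ i ∈ Finset.range r, a (l + i)‖ ≤ r := by
    refine (norm_sum_le _ _).trans ?_
    refine (Finset.sum_le_sum fun i _ => ha (l + i)).trans ?_
    simp
  have g2 : ‖∑ i ∈ Finset.range r, a i‖ ≤ r := by
    refine (norm_sum_le _ _).trans ?_
    refine (Finset.sum_le_sum fun i _ => ha i).trans ?_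
    simp
  exact (norm_sub_le _ _).trans (by linarith)

/-- indices far from the coset `α + Z/θ` -/
def Far (θ ε α : ℝ) (δ : ℕ → ℝ) (n : ℕ) : Prop := ∀ k : ℤ, ε ≤ |δ n - α - k / θ|

lemma not_far {θ ε α : ℝ} (hθ : 0 < θ) {w : ℕ → ℝ} {r j : ℕ}
    (h : ¬ Far θ ε α (fun n => w (n + r) - w n) j) :
    ‖ee (θ * w (j + r)) - ee (θ * α) * ee (θ * w j)‖ ≤ 2 * Real.pi * θ * ε := by
  unfold Far at h
  push Not at h
  obtain ⟨k, hk⟩ := h
  set s : ℝ := w (j + r) - w j - α - k / θ with hs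
  have e1 : θ * w (j + r) = (θ * α + θ * w j) + (k + θ * s) := by
    rw [hs]
    field_simp
    ring
  have e2 : ee (θ * w (j + r)) - ee (θ * α) * ee (θ * w j) =
      ee (θ * α) * ee (θ * w j) * (ee (θ * s) - 1) := by
    rw [e1, ee_add, ee_add, ee_add (k : ℝ), ee_int]
    ring
  rw [e2, norm_mul, norm_mul, ee_norm, ee_norm, one_mul, one_mul]
  refine (ee_sub_one _).trans ?_
  rw [abs_mul, abs_of_pos hθ]
  have := Real.pi_pos
  nlinarith [mul_pos this hθ]

/-- the window is good if there are no far indices -/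
lemma good_of (θ : ℝ) (hθ : 0 < θ) (w : ℕ → ℝ) (r : ℕ) (hr : 1 ≤ r) (α κ : ℝ) (hκ : 0 < κ)
    (L0 : ℕ) : ∃ L : ℕ, L0 ≤ L ∧ ∀ B : ℕ, ∃ ε : ℝ, 0 < ε ∧ ∀ n : ℕ,
      (∀ j, n ≤ j → j ≤ n + (B + L) → ¬ Far θ ε α (fun n => w (n + r) - w n) j) →
      Good κ L B (fun j => ee (θ * w j)) n := by
  have hpi := Real.pi_pos
  have hr0 : (0 : ℝ) < r := by exact_mod_cast hr
  have hbig : ∀ C : ℝ, ∃ L : ℕ, L0 ≤ L ∧ 1 ≤ L ∧ C ≤ κ * Real.sqrt L := by
    intro C
    obtain ⟨M, hM⟩ := exists_nat_ge ((C / κ) ^ 2)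
    refine ⟨max L0 (max 1 M), le_max_left _ _, le_max_of_le_right (le_max_left _ _), ?_⟩
    have h1 : C / κ ≤ Real.sqrt ((max L0 (max 1 M) : ℕ) : ℝ) := by
      refine (le_abs_self _).trans ?_
      rw [← Real.sqrt_sq_eq_abs]
      refine Real.sqrt_le_sqrt (hM.trans ?_)
      exact_mod_cast le_max_of_le_right (le_max_right _ _)
    rw [div_le_iff₀ hκ] at h1
    linarith
  by_cases hω : ee (θ * α) = 1
  · obtain ⟨L, hL0, hL1, hL⟩ := hbig (2 * r + 1)
    refine ⟨L, hL0, fun B => ?_⟩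
    have hL1' : (1 : ℝ) ≤ L := by exact_mod_cast hL1
    have hB0 : (0 : ℝ) ≤ B := Nat.cast_nonneg B
    have hD : (0 : ℝ) < L * (B + L) := by positivity
    refine ⟨1 / (L * (B + L) * (2 * Real.pi * θ)), by positivity, fun n hn => ?_⟩
    set ε : ℝ := 1 / (L * (B + L) * (2 * Real.pi * θ)) with hε
    have hη : 2 * Real.pi * θ * ε = 1 / (L * (B + L)) := by
      rw [hε]
      field_simp
    set z : ℕ → ℂ := fun j => ee (θ * w j) with hz
    have hz1 : ∀ j, ‖z j‖ ≤ 1 := fun j => (ee_norm _).le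
    have hstep : ∀ j, n ≤ j → j ≤ n + (B + L) → ‖z (j + r) - z j‖ ≤ 1 / (L * (B + L)) := by
      intro j h1 h2
      have h3 := not_far hθ (hn j h1 h2)
      rw [hω, one_mul, hη] at h3
      exact h3
    -- the block sums are almost constant
    have hS : ∀ m : ℕ, m ≤ B + L → ‖∑ i ∈ Finset.range r, z (n + m + i) -
        ∑ i ∈ Finset.range r, z (n + i)‖ ≤ m * (1 / (L * (B + L))) := by
      intro m
      induction m with
      | zero => intro _; simp
      | succ m ih =>
        intro hm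
        have h1 := ih (by omega)
        have h2 := hstep (n + m) (by omega) (by omega)
        have e1 := Finset.sum_range_succ (fun i => z (n + m + i)) r
        have e2 := Finset.sum_range_succ' (fun i => z (n + m + i)) r
        have e3 : ∑ i ∈ Finset.range r, z (n + (m + 1) + i) =
            ∑ i ∈ Finset.range r, z (n + m + (i + 1)) :=
          Finset.sum_congr rfl fun i _ => by congr 1; ring
        have e4 : ∑ i ∈ Finset.range r, z (n + (m + 1) + i) - ∑ i ∈ Finset.range r, z (n + i) =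
            (∑ i ∈ Finset.range r, z (n + m + i) - ∑ i ∈ Finset.range r, z (n + i)) +
              (z (n + m + r) - z (n + m)) := by
          rw [e3]
          simp only [add_zero] at e2
          linear_combination e1 - e2
        rw [e4]
        refine (norm_add_le _ _).trans ?_
        push_cast
        linarith
    refine ⟨(∑ i ∈ Finset.range r, z (n + i)) / r, fun m l hm hl => ?_⟩
    have hlL : (l : ℝ) ≤ L := by exact_mod_cast hl
    have hmB : (m : ℝ) ≤ B := by exact_mod_cast hm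
    -- comparison of r * sum with the double sum
    have hA : ‖∑ j ∈ Finset.range r, ∑ i ∈ Finset.range l, z (n + m + (j + i)) -
        r * ∑ i ∈ Finset.range l, z (n + m + i)‖ ≤ r * (2 * r) := by
      have e1 : (r : ℂ) * ∑ i ∈ Finset.range l, z (n + m + i) =
          ∑ _j ∈ Finset.range r, ∑ i ∈ Finset.range l, z (n + m + i) := by simp
      rw [e1, ← Finset.sum_sub_distrib]
      refine (norm_sum_le _ _).trans ?_
      calc ∑ j ∈ Finset.range r, ‖∑ i ∈ Finset.range l, z (n + m + (j + i)) -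
            ∑ i ∈ Finset.range l, z (n + m + i)‖ ≤ ∑ _j ∈ Finset.range r, (2 * r : ℝ) := by
            refine Finset.sum_le_sum fun j hj => ?_
            refine (shift_le (fun i => z (n + m + i)) (fun i => hz1 _) l j).trans ?_
            have : (j : ℝ) ≤ r := by exact_mod_cast (Finset.mem_range.1 hj).le
            linarith
        _ = r * (2 * r) := by simp
    have hBd : ‖∑ j ∈ Finset.range r, ∑ i ∈ Finset.range l, z (n + m + (j + i)) -
        l * ∑ i ∈ Finset.range r, z (n + i)‖ ≤ 1 := by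
      have e0 : ∑ j ∈ Finset.range r, ∑ i ∈ Finset.range l, z (n + m + (j + i)) =
          ∑ i ∈ Finset.range l, ∑ j ∈ Finset.range r, z (n + (m + i) + j) := by
        rw [Finset.sum_comm]
        refine Finset.sum_congr rfl fun i _ => Finset.sum_congr rfl fun j _ => ?_
        congr 1
        ring
      have e1 : (l : ℂ) * ∑ i ∈ Finset.range r, z (n + i) =
          ∑ _i ∈ Finset.range l, ∑ j ∈ Finset.range r, z (n + j) := by simp
      rw [e0, e1, ← Finset.sum_sub_distrib]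
      refine (norm_sum_le _ _).trans ?_
      calc ∑ i ∈ Finset.range l, ‖∑ j ∈ Finset.range r, z (n + (m + i) + j) -
            ∑ j ∈ Finset.range r, z (n + j)‖ ≤
            ∑ _i ∈ Finset.range l, ((B + L) * (1 / (L * (B + L))) : ℝ) := by
            refine Finset.sum_le_sum fun i hi => ?_
            have hi' := Finset.mem_range.1 hi
            refine (hS (m + i) (by omega)).trans ?_
            refine mul_le_mul_of_nonneg_right ?_ (by positivity)
            have h5 : (i : ℝ) ≤ L := by exact_mod_cast (by omega : i ≤ L)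
            push_cast
            linarith
        _ = l / L := by
            simp only [Finset.sum_const, Finset.card_range, nsmul_eq_mul]
            field_simp
        _ ≤ 1 := by
            rw [div_le_one (by linarith)]
            exact hlL
    have hC : ‖(r : ℂ) * (∑ i ∈ Finset.range l, z (n + m + i) -
        l * ((∑ i ∈ Finset.range r, z (n + i)) / r))‖ ≤ r * (2 * r) + 1 := by
      have hrc : (r : ℂ) ≠ 0 := by exact_mod_cast hr0.ne'
      have e1 : (r : ℂ) * (∑ i ∈ Finset.range l, z (n + m + i) -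
          l * ((∑ i ∈ Finset.range r, z (n + i)) / r)) =
          (∑ j ∈ Finset.range r, ∑ i ∈ Finset.range l, z (n + m + (j + i)) -
            l * ∑ i ∈ Finset.range r, z (n + i)) -
          (∑ j ∈ Finset.range r, ∑ i ∈ Finset.range l, z (n + m + (j + i)) -
            r * ∑ i ∈ Finset.range l, z (n + m + i)) := by
        field_simp
        ring
      rw [e1]
      refine (norm_sub_le _ _).trans ?_
      linarith
    rw [norm_mul, Complex.norm_natCast] at hC
    refine le_trans ?_ hL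
    have hr1 : (1 : ℝ) ≤ r := by exact_mod_cast hr
    have hx := norm_nonneg (∑ i ∈ Finset.range l, z (n + m + i) -
        l * ((∑ i ∈ Finset.range r, z (n + i)) / r))
    by_contra hcon
    rw [not_le] at hcon
    nlinarith
  · have hω0 : 0 < ‖1 - ee (θ * α)‖ := norm_pos_iff.2 (sub_ne_zero.2 fun h => hω h.symm)
    obtain ⟨L, hL0, hL1, hL⟩ := hbig ((2 * r + 1) / ‖1 - ee (θ * α)‖)
    refine ⟨L, hL0, fun B => ?_⟩
    have hL1' : (1 : ℝ) ≤ L := by exact_mod_cast hL1
    refine ⟨1 / (L * (2 * Real.pi * θ)), by positivity, fun n hn => ?_⟩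
    set ε : ℝ := 1 / (L * (2 * Real.pi * θ)) with hε
    have hη : 2 * Real.pi * θ * ε = 1 / L := by
      rw [hε]
      field_simp
    set z : ℕ → ℂ := fun j => ee (θ * w j) with hz
    have hz1 : ∀ j, ‖z j‖ ≤ 1 := fun j => (ee_norm _).le
    have hstep : ∀ j, n ≤ j → j ≤ n + (B + L) →
        ‖z (j + r) - ee (θ * α) * z j‖ ≤ 1 / L := by
      intro j h1 h2
      have h3 := not_far hθ (hn j h1 h2)
      rw [hη] at h3
      exact h3
    refine ⟨0, fun m l hm hl => ?_⟩
    have hlL : (l : ℝ) ≤ L := by exact_mod_cast hl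
    rw [mul_zero, sub_zero]
    have hA : ‖∑ i ∈ Finset.range l, z (n + m + (r + i)) - ∑ i ∈ Finset.range l, z (n + m + i)‖ ≤
        2 * r := shift_le (fun i => z (n + m + i)) (fun i => hz1 _) l r
    have hB : ‖∑ i ∈ Finset.range l, z (n + m + (r + i)) -
        ee (θ * α) * ∑ i ∈ Finset.range l, z (n + m + i)‖ ≤ 1 := by
      rw [Finset.mul_sum, ← Finset.sum_sub_distrib]
      refine (norm_sum_le _ _).trans ?_
      calc ∑ i ∈ Finset.range l, ‖z (n + m + (r + i)) - ee (θ * α) * z (n + m + i)‖ ≤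
            ∑ _i ∈ Finset.range l, (1 / L : ℝ) := by
            refine Finset.sum_le_sum fun i hi => ?_
            have hi' := Finset.mem_range.1 hi
            have e1 : n + m + (r + i) = (n + m + i) + r := by ring
            rw [e1]
            exact hstep (n + m + i) (by omega) (by omega)
        _ = l / L := by
            simp only [Finset.sum_const, Finset.card_range, nsmul_eq_mul]
            ring
        _ ≤ 1 := by
            rw [div_le_one (by linarith)]
            exact hlL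
    have hC : ‖(1 - ee (θ * α)) * ∑ i ∈ Finset.range l, z (n + m + i)‖ ≤ 2 * r + 1 := by
      have e1 : (1 - ee (θ * α)) * ∑ i ∈ Finset.range l, z (n + m + i) =
          (∑ i ∈ Finset.range l, z (n + m + (r + i)) -
            ee (θ * α) * ∑ i ∈ Finset.range l, z (n + m + i)) -
          (∑ i ∈ Finset.range l, z (n + m + (r + i)) - ∑ i ∈ Finset.range l, z (n + m + i)) := by
        ring
      rw [e1]
      refine (norm_sub_le _ _).trans ?_
      linarith
    rw [norm_mul] at hC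
    refine le_trans ?_ hL
    rw [le_div_iff₀ hω0]
    linarith

/-- the far indices up to `N` -/
def WG (θ ε α : ℝ) (δ : ℕ → ℝ) (N : ℕ) : Set ℕ := {n : ℕ | 1 ≤ n ∧ n ≤ N ∧ Far θ ε α δ n}

lemma WG_fin (θ ε α : ℝ) (δ : ℕ → ℝ) (N : ℕ) : (WG θ ε α δ N).Finite :=
  (Set.finite_Iic N).subset fun _ hn => hn.2.1

lemma WG_mono {θ ε ε' α α' : ℝ} {δ : ℕ → ℝ} (h : ε' + |α - α'| ≤ ε) (N : ℕ) :
    WG θ ε α δ N ⊆ WG θ ε' α' δ N := by
  rintro n ⟨g1, g2, g3⟩
  refine ⟨g1, g2, fun k => ?_⟩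
  have h1 := g3 k
  have h2 : |δ n - α - k / θ| ≤ |δ n - α' - k / θ| + |α - α'| := by
    have h3 := abs_sub_le (δ n - α - k / θ) (δ n - α' - k / θ) 0
    have h4 : δ n - α - k / θ - (δ n - α' - k / θ) = -(α - α') := by ring
    rw [sub_zero, sub_zero, h4, abs_neg] at h3
    linarith
  linarith

/-- double counting -/
lemma count (P Q : ℕ → Prop) (D : ℕ) (h : ∀ n, P n → ∃ j, n ≤ j ∧ j ≤ n + D ∧ Q j) (N : ℕ) :
    ({n : ℕ | 1 ≤ n ∧ n ≤ N ∧ P n}.ncard : ℝ) ≤
      (D + 1) * (({n : ℕ | 1 ≤ n ∧ n ≤ N ∧ Q n}.ncard : ℝ) + D) := by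
  classical
  have e1 : {n : ℕ | 1 ≤ n ∧ n ≤ N ∧ P n} = ((Finset.Icc 1 N).filter P : Set ℕ) := by
    ext n; simp [and_assoc]
  have e2 : {n : ℕ | 1 ≤ n ∧ n ≤ N ∧ Q n} = ((Finset.Icc 1 N).filter Q : Set ℕ) := by
    ext n; simp [and_assoc]
  rw [e1, e2, Set.ncard_coe_finset, Set.ncard_coe_finset]
  have h1 : (Finset.Icc 1 N).filter P ⊆
      ((Finset.Icc 1 (N + D)).filter Q).biUnion fun j => Finset.Icc (j - D) j := by
    intro n hn
    rw [Finset.mem_filter, Finset.mem_Icc] at hn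
    obtain ⟨j, hj1, hj2, hj3⟩ := h n hn.2
    rw [Finset.mem_biUnion]
    refine ⟨j, ?_, ?_⟩
    · rw [Finset.mem_filter, Finset.mem_Icc]
      exact ⟨⟨by omega, by omega⟩, hj3⟩
    · rw [Finset.mem_Icc]
      omega
  have h2 : ((Finset.Icc 1 (N + D)).filter Q).card ≤ ((Finset.Icc 1 N).filter Q).card + D := by
    have h3 : (Finset.Icc 1 (N + D)).filter Q ⊆
        (Finset.Icc 1 N).filter Q ∪ Finset.Icc (N + 1) (N + D) := by
      intro j hj
      rw [Finset.mem_filter, Finset.mem_Icc] at hj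
      rw [Finset.mem_union, Finset.mem_filter, Finset.mem_Icc, Finset.mem_Icc]
      by_cases hjN : j ≤ N
      · exact Or.inl ⟨⟨hj.1.1, hjN⟩, hj.2⟩
      · exact Or.inr ⟨by omega, hj.1.2⟩
    refine (Finset.card_le_card h3).trans ((Finset.card_union_le _ _).trans ?_)
    simp
  have h4 : ((Finset.Icc 1 N).filter P).card ≤
      ((Finset.Icc 1 (N + D)).filter Q).card * (D + 1) := by
    refine (Finset.card_le_card h1).trans (Finset.card_biUnion_le_card_mul _ _ _ fun j _ => ?_)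
    rw [Nat.card_Icc]
    omega
  have h5 : ((Finset.Icc 1 N).filter P).card ≤ (((Finset.Icc 1 N).filter Q).card + D) * (D + 1) :=
    h4.trans (Nat.mul_le_mul_right _ h2)
  have h6 : (((Finset.Icc 1 N).filter P).card : ℝ) ≤
      ((((Finset.Icc 1 N).filter Q).card + D) * (D + 1) : ℕ) := by exact_mod_cast h5
  refine h6.trans (le_of_eq ?_)
  push_cast
  ring

theorem one (θ : ℝ) (hθ : 0 < θ) (w : ℕ → ℝ) (h : MN θ w) (r : ℕ) (hr : 1 ≤ r) (α : ℝ) :
    ∃ ε : ℝ, 0 < ε ∧ ∀ᶠ N : ℕ in atTop,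
      ε * N ≤ ((WG θ ε α (fun n => w (n + r) - w n) N).ncard : ℝ) := by
  obtain ⟨κ, hκ, L0, hL0⟩ := h
  obtain ⟨L, hL, hLB⟩ := good_of θ hθ w r hr α κ hκ L0
  obtain ⟨B, ε0, hε0, hN⟩ := hL0 L hL
  obtain ⟨ε, hε, hg⟩ := hLB B
  set D : ℕ := B + L with hD
  have hD0 : (0 : ℝ) < (D : ℝ) + 1 := by positivity
  refine ⟨min ε (ε0 / (2 * (D + 1))), lt_min hε (by positivity), ?_⟩
  have hlarge : ∀ᶠ N : ℕ in atTop, (D : ℝ) * (2 * (D + 1)) / ε0 ≤ N :=
    tendsto_natCast_atTop_atTop.eventually_ge_atTop _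
  filter_upwards [hN, hlarge] with N hN hlN
  have h1 := count (fun n => ¬ Good κ L B (fun j => ee (θ * w j)) n)
    (Far θ ε α (fun n => w (n + r) - w n)) D (by
      intro n hn
      by_contra hcon
      push Not at hcon
      exact hn (hg n hcon)) N
  have h2 : ((WG θ ε α (fun n => w (n + r) - w n) N).ncard : ℝ) ≤
      ((WG θ (min ε (ε0 / (2 * (D + 1)))) α (fun n => w (n + r) - w n) N).ncard : ℝ) := by
    exact_mod_cast Set.ncard_le_ncard
      (WG_mono (by rw [sub_self, abs_zero, add_zero]; exact min_le_left _ _) N) (WG_fin _ _ _ _ _)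
  refine le_trans ?_ h2
  have h3 : ε0 * N ≤ (D + 1) * (((WG θ ε α (fun n => w (n + r) - w n) N).ncard : ℝ) + D) :=
    hN.trans h1
  have h4 : min ε (ε0 / (2 * (D + 1))) * (N : ℝ) ≤ ε0 / (2 * (D + 1)) * N :=
    mul_le_mul_of_nonneg_right (min_le_right _ _) (Nat.cast_nonneg _)
  refine h4.trans ?_
  rw [div_le_iff₀ hε0] at hlN
  rw [div_mul_eq_mul_div, div_le_iff₀ (by positivity)]
  nlinarith

/-- uniformity in the coset -/
theorem unif (θ : ℝ) (hθ : 0 < θ) (δ : ℕ → ℝ)
    (h : ∀ α : ℝ, ∃ ε : ℝ, 0 < ε ∧ ∀ᶠ N : ℕ in atTop, ε * N ≤ ((WG θ ε α δ N).ncard : ℝ)) :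
    ∃ ε : ℝ, 0 < ε ∧ ∀ᶠ N : ℕ in atTop, ∀ α : ℝ, ε * N ≤ ((WG θ ε α δ N).ncard : ℝ) := by
  have hK : ∃ ε : ℝ, 0 < ε ∧ ∀ᶠ N : ℕ in atTop, ∀ α ∈ Set.Icc (0 : ℝ) (1 / θ),
      ε * N ≤ ((WG θ ε α δ N).ncard : ℝ) := by
    refine IsCompact.induction_on (isCompact_Icc (a := (0 : ℝ)) (b := 1 / θ))
      (p := fun K => ∃ ε : ℝ, 0 < ε ∧ ∀ᶠ N : ℕ in atTop, ∀ α ∈ K,
        ε * N ≤ ((WG θ ε α δ N).ncard : ℝ)) ?_ ?_ ?_ ?_
    · exact ⟨1, one_pos, Filter.Eventually.of_forall fun N α hα => absurd hα (Set.notMem_empty _)⟩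
    · rintro s t hst ⟨ε, hε, h⟩
      exact ⟨ε, hε, h.mono fun N hN α hα => hN α (hst hα)⟩
    · rintro s t ⟨ε, hε, h⟩ ⟨ε', hε', h'⟩
      refine ⟨min ε ε', lt_min hε hε', ?_⟩
      filter_upwards [h, h'] with N hN hN' α hα
      rcases hα with hα | hα
      · have h1 := hN α hα
        have h2 : ((WG θ ε α δ N).ncard : ℝ) ≤ ((WG θ (min ε ε') α δ N).ncard : ℝ) := by
          exact_mod_cast Set.ncard_le_ncard
            (WG_mono (by rw [sub_self, abs_zero, add_zero]; exact min_le_left _ _) N)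
            (WG_fin _ _ _ _ _)
        have h3 : min ε ε' * (N : ℝ) ≤ ε * N :=
          mul_le_mul_of_nonneg_right (min_le_left _ _) (Nat.cast_nonneg _)
        linarith
      · have h1 := hN' α hα
        have h2 : ((WG θ ε' α δ N).ncard : ℝ) ≤ ((WG θ (min ε ε') α δ N).ncard : ℝ) := by
          exact_mod_cast Set.ncard_le_ncard
            (WG_mono (by rw [sub_self, abs_zero, add_zero]; exact min_le_right _ _) N)
            (WG_fin _ _ _ _ _)
        have h3 : min ε ε' * (N : ℝ) ≤ ε' * N :=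
          mul_le_mul_of_nonneg_right (min_le_right _ _) (Nat.cast_nonneg _)
        linarith
    · intro α _
      obtain ⟨ε, hε, h⟩ := h α
      refine ⟨Metric.ball α (ε / 2), mem_nhdsWithin_of_mem_nhds (Metric.ball_mem_nhds _
        (by positivity)), ε / 2, by positivity, ?_⟩
      filter_upwards [h] with N hN α' hα'
      rw [Metric.mem_ball, dist_comm, Real.dist_eq] at hα'
      have h2 : ((WG θ ε α δ N).ncard : ℝ) ≤ ((WG θ (ε / 2) α' δ N).ncard : ℝ) := by
        exact_mod_cast Set.ncard_le_ncard (WG_mono (by linarith) N) (WG_fin _ _ _ _ _)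
      have h3 : ε / 2 * (N : ℝ) ≤ ε * N :=
        mul_le_mul_of_nonneg_right (by linarith) (Nat.cast_nonneg _)
      linarith
  obtain ⟨ε, hε, h⟩ := hK
  refine ⟨ε, hε, ?_⟩
  filter_upwards [h] with N hN α
  set m : ℤ := ⌊α * θ⌋ with hm
  have h1 := hN (α - m / θ) (by
    have g1 := Int.floor_le (α * θ)
    have g2 := (Int.lt_floor_add_one (α * θ)).le
    rw [← hm] at g1 g2
    constructor
    · rw [sub_nonneg, div_le_iff₀ hθ]; exact g1
    · rw [sub_le_iff_le_add, ← add_div, le_div_iff₀ hθ]; linarith)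
  have h2 : WG θ ε (α - m / θ) δ N = WG θ ε α δ N := by
    ext n
    unfold WG Far
    simp only [Set.mem_ofPred_eq]
    constructor
    · rintro ⟨g1, g2, g3⟩
      refine ⟨g1, g2, fun k => ?_⟩
      have := g3 (k + m)
      have e1 : δ n - (α - m / θ) - ((k + m : ℤ) : ℝ) / θ = δ n - α - k / θ := by
        push_cast; ring
      rwa [e1] at this
    · rintro ⟨g1, g2, g3⟩
      refine ⟨g1, g2, fun k => ?_⟩
      have := g3 (k - m)
      have e1 : δ n - α - ((k - m : ℤ) : ℝ) / θ = δ n - (α - m / θ) - k / θ := by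
        push_cast; ring
      rwa [e1] at this
  rwa [h2] at h1

/-- Task AHP-8. -/
theorem main : CorCoset := by
  intro θ hθ w h r hr
  exact unif θ hθ (fun n => w (n + r) - w n) fun α => one θ hθ w h r hr α

end Pool.Agent.W214.AHP8
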